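import Pool.Agent.H.MP_e11395_an.Tower

/-!
The common files of the project: `Slot` (contractible algebras, slots), `Conn` (connecting maps
before reindexing), `Tower` (combinatorial data, building blocks, connecting maps, limits).
-/
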