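import Mathlib

/-!
# MP_e11395: the notions used in the final statement
-/

set_option autoImplicit false

open scoped Matrix

namespace Pool.Agent.H.MP_e11395_an

section Ktheory

/-- An idempotent square matrix over `A`. -/
structure Idem (A : Type) [Ring A] where
  n : ℕ
  e : Matrix (Fin n) (Fin n) A
  idem : e * e = e

variable (A : Type) [Ring A]

/-- Two idempotent matrices are equivalent (isomorphic projective modules) if they are `x * y`
and `y * x` for rectangular matrices `x`, `y`. -/
def Idem.Equiv {A : Type} [Ring A] (p q : Idem A) : Prop :=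
  ∃ (x : Matrix (Fin p.n) (Fin q.n) A) (y : Matrix (Fin q.n) (Fin p.n) A),
    x * y = p.e ∧ y * x = q.e

/-- The block diagonal sum of two idempotent matrices. -/
def Idem.sum {A : Type} [Ring A] (p q : Idem A) : Idem A where
  n := p.n + q.n
  e := Matrix.reindex finSumFinEquiv finSumFinEquiv (Matrix.fromBlocks p.e 0 0 q.e)
  idem := by
    rw [Matrix.reindex_apply, Matrix.submatrix_mul_equiv, Matrix.fromBlocks_multiply]
    simp [p.idem, q.idem]

/-- The unit of `A` as a `1 x 1` idempotent matrix. -/
def Idem.one : Idem A := ⟨1, 1, by simp⟩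

/-- The relations defining `K_0`. -/
def K0Rel : Set (FreeAbelianGroup (Idem A)) :=
  {z | (∃ p q : Idem A, p.Equiv q ∧ z = FreeAbelianGroup.of p - FreeAbelianGroup.of q) ∨
    ∃ p q : Idem A, z = FreeAbelianGroup.of (p.sum q) - FreeAbelianGroup.of p -
      FreeAbelianGroup.of q}

/-- `K_0(A)`: the Grothendieck group of the idempotent matrices over `A`, that is, the abelian
group generated by the idempotent matrices, with `[p] = [q]` for equivalent `p` and `q`, and
`[p ⊕ q] = [p] + [q]`. (For a C*-algebra this is the topological `K_0`.) -/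
def K0 : Type := FreeAbelianGroup (Idem A) ⧸ AddSubgroup.closure (K0Rel A)

instance : AddCommGroup (K0 A) :=
  inferInstanceAs (AddCommGroup (FreeAbelianGroup (Idem A) ⧸ AddSubgroup.closure (K0Rel A)))

/-- The class of an idempotent matrix in `K_0`. -/
def K0.mk {A : Type} [Ring A] (p : Idem A) : K0 A :=
  QuotientAddGroup.mk (FreeAbelianGroup.of p)

/-- `diag(u, 1, ..., 1)` of size `N`. -/
def stab {A : Type} [Ring A] {n : ℕ} (u : Matrix (Fin n) (Fin n) A) (N : ℕ) :
    Matrix (Fin N) (Fin N) A := fun i j =>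
  if h : i.1 < n ∧ j.1 < n then u ⟨i.1, h.1⟩ ⟨j.1, h.2⟩ else if i = j then 1 else 0

/-- Two invertible matrices are related if, enlarged by ones, they can be joined by a continuous
path of invertible matrices (the topology of matrices is the entrywise one, which for a
C*-algebra is the norm topology of the matrix algebra). -/
def K1Rel [TopologicalSpace A] (u v : Σ n : ℕ, (Matrix (Fin n) (Fin n) A)ˣ) : Prop :=
  ∃ N : ℕ, u.1 ≤ N ∧ v.1 ≤ N ∧
    JoinedIn {M : Matrix (Fin N) (Fin N) A | IsUnit M}
      (stab (u.2 : Matrix (Fin u.1) (Fin u.1) A) N) (stab (v.2 : Matrix (Fin v.1) (Fin v.1) A) N)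

/-- (The underlying set of) `K_1(A)`: stable path components of the invertible matrices. -/
def K1 [TopologicalSpace A] : Type := Quot (K1Rel A)

end Ktheory

/-- `A` has no closed two-sided ideals other than `0` and `A`. -/
def SimpleCStar (A : Type) [CStarAlgebra A] : Prop :=
  Nontrivial A ∧ ∀ J : TwoSidedIdeal A, IsClosed (J : Set A) → J = ⊥ ∨ J = ⊤

/-- A linear map between star algebras is completely positive: matrices of the form `X⋆ X` are
mapped (entrywise) to matrices of the form `Y⋆ Y` (in a C*-algebra these are the positive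
matrices). -/
def IsCP {A B : Type} [Ring A] [StarRing A] [Algebra ℂ A] [Ring B] [StarRing B] [Algebra ℂ B]
    (φ : A →ₗ[ℂ] B) : Prop :=
  ∀ (k : ℕ) (X : Matrix (Fin k) (Fin k) A), ∃ Y : Matrix (Fin k) (Fin k) B,
    (Xᴴ * X).map φ = Yᴴ * Y

/-- A unital completely positive map. -/
def IsUCP {A B : Type} [Ring A] [StarRing A] [Algebra ℂ A] [Ring B] [StarRing B] [Algebra ℂ B]
    (φ : A →ₗ[ℂ] B) : Prop :=
  IsCP φ ∧ φ 1 = 1

/-- On the finite set `S`, the map `π` is closer than `ε` to a composition of unital completely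
positive maps `A → M_n(ℂ) → B`. -/
def UCPFactors {A B : Type} [Ring A] [StarRing A] [Algebra ℂ A] [NormedRing B] [StarRing B]
    [Algebra ℂ B] (π : A → B) (S : Finset A) (ε : ℝ) : Prop :=
  ∃ (n : ℕ) (α : A →ₗ[ℂ] Matrix (Fin n) (Fin n) ℂ) (β : Matrix (Fin n) (Fin n) ℂ →ₗ[ℂ] B),
    IsUCP α ∧ IsUCP β ∧ ∀ a ∈ S, ‖β (α a) - π a‖ < ε

/-- An injective *-homomorphism which is a point-norm limit of maps factoring, through unital
completely positive maps, through matrix algebras. -/
def NuclearEmbedding {A B : Type} [CStarAlgebra A] [CStarAlgebra B] (π : A →⋆ₐ[ℂ] B) : Prop :=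
  Function.Injective π ∧ ∀ (S : Finset A) (ε : ℝ), 0 < ε → UCPFactors π S ε

/-- `A` is exact: it has a faithful representation on a Hilbert space which is a point-norm limit
of maps factoring, through unital completely positive maps, through matrix algebras
(nuclear embeddability). -/
def ExactCStar (A : Type) [CStarAlgebra A] : Prop :=
  ∃ (H : Type) (_ : NormedAddCommGroup H) (_ : InnerProductSpace ℂ H) (_ : CompleteSpace H)
    (π : A →⋆ₐ[ℂ] (H →L[ℂ] H)), NuclearEmbedding π

/-- Isometries in matrix algebras over `A` are unitary. -/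
def StablyFiniteCStar (A : Type) [CStarAlgebra A] : Prop :=
  ∀ (n : ℕ) (v : Matrix (Fin n) (Fin n) A), vᴴ * v = 1 → v * vᴴ = 1

/-- The final statement. -/
def Statement : Prop :=
  ∃ (A : Type) (_ : CStarAlgebra A), SimpleCStar A ∧ TopologicalSpace.SeparableSpace A ∧
    ExactCStar A ∧ StablyFiniteCStar A ∧
    (∃ φ : K0 A ≃+ ℤ, φ (K0.mk (Idem.one A)) = 1) ∧ Subsingleton (K1 A) ∧
    IsEmpty (A ≃⋆ₐ[ℂ] Aᵐᵒᵖ)

end Pool.Agent.H.MP_e11395_an
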