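import Pool.Agent.H.MP_e11395_an.Defs

/-!
# Matrix algebras over C*-algebras

`Mt ι B` is the C*-algebra of `ι × ι` matrices over the C*-algebra `B`.
-/

set_option autoImplicit false
set_option linter.unusedSectionVars false
set_option linter.style.haveILetI false

open Filter Topology

namespace Pool.Agent.H.MP_e11395_an

/-- `ι × ι` matrices over `B`. -/
def Mt (ι B : Type) : Type := CStarMatrix ι ι B

section

variable {ι B : Type} [Fintype ι] [DecidableEq ι] [CStarAlgebra B]

noncomputable instance : CStarAlgebra (Mt ι B) :=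
  letI := CStarAlgebra.spectralOrder B
  letI := CStarAlgebra.spectralOrderedRing B
  inferInstanceAs (CStarAlgebra (CStarMatrix ι ι B))

instance : CoeFun (Mt ι B) (fun _ => ι → ι → B) := ⟨fun M => M⟩

/-- The matrix with given entries. -/
def Mt.of (f : ι → ι → B) : Mt ι B := f

@[simp] theorem Mt.of_apply (f : ι → ι → B) (i j : ι) : (Mt.of f : Mt ι B) i j = f i j := rfl

@[ext] theorem Mt.ext {M N : Mt ι B} (h : ∀ i j, M i j = N i j) : M = N :=
  funext fun i => funext fun j => h i j

@[simp] theorem Mt.add_apply (M N : Mt ι B) (i j : ι) : (M + N) i j = M i j + N i j := rfl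
@[simp] theorem Mt.sub_apply (M N : Mt ι B) (i j : ι) : (M - N) i j = M i j - N i j := rfl
@[simp] theorem Mt.neg_apply (M : Mt ι B) (i j : ι) : (-M) i j = -M i j := rfl
@[simp] theorem Mt.zero_apply (i j : ι) : (0 : Mt ι B) i j = 0 := rfl
theorem Mt.one_apply (i j : ι) : (1 : Mt ι B) i j = if i = j then 1 else 0 := rfl
theorem Mt.mul_apply (M N : Mt ι B) (i j : ι) : (M * N) i j = ∑ k, M i k * N k j := rfl
@[simp] theorem Mt.smul_apply (c : ℂ) (M : Mt ι B) (i j : ι) : (c • M) i j = c • M i j := rfl
@[simp] theorem Mt.star_apply (M : Mt ι B) (i j : ι) : (star M) i j = star (M j i) := rfl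
theorem Mt.algebraMap_apply (c : ℂ) (i j : ι) :
    (algebraMap ℂ (Mt ι B) c) i j = if i = j then algebraMap ℂ B c else 0 := rfl

theorem Mt.norm_entry_le (M : Mt ι B) (i j : ι) : ‖M i j‖ ≤ ‖M‖ :=
  letI := CStarAlgebra.spectralOrder B
  letI := CStarAlgebra.spectralOrderedRing B
  CStarMatrix.norm_entry_le_norm (M := (M : CStarMatrix ι ι B))

open CStarMatrix WithCStarModule in
theorem Mt.norm_le_sum_aux [PartialOrder B] [StarOrderedRing B] (M : CStarMatrix ι ι B) :
    ‖M‖ ≤ ∑ j, ∑ i, ‖M i j‖ := by
  rw [norm_def]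
  refine (toCLM M).opNorm_le_bound (by positivity) fun v => ?_
  simp only [toCLM_apply_eq_sum, Finset.sum_mul]
  apply pi_norm_le_sum_norm _ |>.trans
  gcongr with i _
  apply norm_sum_le _ _ |>.trans
  gcongr with j _
  apply norm_mul_le _ _ |>.trans
  rw [mul_comm]
  gcongr
  exact norm_apply_le_norm v j

theorem Mt.norm_le_sum (M : Mt ι B) : ‖M‖ ≤ ∑ i, ∑ j, ‖M i j‖ := by
  rw [Finset.sum_comm]
  exact
    letI := CStarAlgebra.spectralOrder B
    letI := CStarAlgebra.spectralOrderedRing B
    Mt.norm_le_sum_aux (M : CStarMatrix ι ι B)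

theorem Mt.continuous_iff {X : Type*} [TopologicalSpace X] {f : X → Mt ι B} :
    Continuous f ↔ ∀ i j, Continuous fun x => f x i j := by
  have h : Continuous f ↔ @Continuous X (ι → ι → B) _ _ (fun x i j => f x i j) := Iff.rfl
  rw [h, continuous_pi_iff]
  exact forall_congr' fun i => continuous_pi_iff

theorem Mt.continuous_entry (i j : ι) : Continuous fun M : Mt ι B => M i j :=
  Mt.continuous_iff.1 continuous_id i j

variable {κ C : Type} [Fintype κ] [DecidableEq κ] [CStarAlgebra C]

/-- Entrywise application of a *-homomorphism. -/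
def Mt.map (φ : B →⋆ₐ[ℂ] C) : Mt ι B →⋆ₐ[ℂ] Mt ι C where
  toFun M := Mt.of fun i j => φ (M i j)
  map_one' := by
    ext i j
    rw [Mt.of_apply, Mt.one_apply, Mt.one_apply]; split_ifs <;> simp
  map_mul' M N := by
    ext i j
    simp [Mt.mul_apply]
  map_zero' := by ext i j; simp
  map_add' M N := by ext i j; simp
  commutes' c := by
    ext i j
    rw [Mt.of_apply, Mt.algebraMap_apply, Mt.algebraMap_apply]
    split_ifs
    · exact AlgHomClass.commutes φ c
    · exact map_zero φ
  map_star' M := by
    ext i j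
    exact map_star φ (M j i)

@[simp] theorem Mt.map_apply (φ : B →⋆ₐ[ℂ] C) (M : Mt ι B) (i j : ι) :
    Mt.map φ M i j = φ (M i j) := rfl

/-- Reindexing. -/
def Mt.reindex (e : ι ≃ κ) : Mt ι B →⋆ₐ[ℂ] Mt κ B where
  toFun M := Mt.of fun i j => M (e.symm i) (e.symm j)
  map_one' := by
    ext i j
    simp [Mt.one_apply]
  map_mul' M N := by
    ext i j
    simp only [Mt.mul_apply, Mt.of_apply]
    exact (Equiv.sum_comp e.symm fun k => M (e.symm i) k * N k (e.symm j)).symm
  map_zero' := by ext i j; simp
  map_add' M N := by ext i j; simp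
  commutes' c := by
    ext i j
    simp [Mt.algebraMap_apply]
  map_star' M := by ext i j; simp

@[simp] theorem Mt.reindex_apply (e : ι ≃ κ) (M : Mt ι B) (i j : κ) :
    Mt.reindex e M i j = M (e.symm i) (e.symm j) := rfl

/-- `M ⊗ 1`: amplification along an identification of the index set with a product. -/
def Mt.amp {σ : Type} [Fintype σ] [DecidableEq σ] (e : κ ≃ ι × σ) : Mt ι B →⋆ₐ[ℂ] Mt κ B where
  toFun M := Mt.of fun i j => if (e i).2 = (e j).2 then M (e i).1 (e j).1 else 0
  map_one' := by
    ext i j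
    simp only [Mt.of_apply, Mt.one_apply]
    by_cases h : i = j
    · simp [h]
    · by_cases h2 : (e i).2 = (e j).2
      · have : (e i).1 ≠ (e j).1 := fun h1 => h (e.injective (Prod.ext h1 h2))
        simp [h, h2, this]
      · simp [h, h2]
  map_mul' M N := by
    ext i j
    simp only [Mt.mul_apply, Mt.of_apply]
    rw [← Equiv.sum_comp e.symm, Fintype.sum_prod_type]
    simp only [Equiv.apply_symm_apply]
    by_cases h : (e i).2 = (e j).2
    · simp [h]
    · have : ∀ (a : ι) (s : σ), ((if (e i).2 = s then M (e i).1 a else 0) *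
          (if s = (e j).2 then N a (e j).1 else 0)) = 0 := by
        intro a s
        by_cases h1 : (e i).2 = s
        · have : s ≠ (e j).2 := fun h2 => h (h1.trans h2)
          simp [this]
        · simp [h1]
      simp [h, this]
  map_zero' := by ext i j; simp
  map_add' M N := by ext i j; simp only [Mt.of_apply, Mt.add_apply]; split_ifs <;> simp
  commutes' c := by
    ext i j
    simp only [Mt.of_apply, Mt.algebraMap_apply]
    by_cases h : i = j
    · simp [h]
    · by_cases h2 : (e i).2 = (e j).2
      · have : (e i).1 ≠ (e j).1 := fun h1 => h (e.injective (Prod.ext h1 h2))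
        simp [h, h2, this]
      · simp [h, h2]
  map_star' M := by
    ext i j
    simp only [Mt.of_apply, Mt.star_apply, eq_comm (a := (e j).2)]
    split_ifs <;> simp

theorem Mt.amp_apply {σ : Type} [Fintype σ] [DecidableEq σ] (e : κ ≃ ι × σ) (M : Mt ι B)
    (i j : κ) :
    Mt.amp e M i j = if (e i).2 = (e j).2 then M (e i).1 (e j).1 else 0 := rfl

end

end Pool.Agent.H.MP_e11395_an
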