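import Pool.Agent.H.MP_e11395_an.Slot

/-!
# The connecting map before reindexing
-/

set_option autoImplicit false
set_option linter.unusedSectionVars false

open Filter Topology

namespace Pool.Agent.H.MP_e11395_an

/-! ### The connecting map on all continuous functions -/

/-- The contraction parameter on the first half: from `1` at `0` to `0` on `[1/4, 1]`. -/
noncomputable def aPar (x : unitInterval) : unitInterval :=
  Set.projIcc (0 : ℝ) 1 zero_le_one (1 - 4 * (x : ℝ))

/-- The position on the first half: `0` on `[0, 1/4]`, then moving to `ξ` at `1/2`. -/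
noncomputable def bPar (ξ x : unitInterval) : unitInterval :=
  Set.projIcc (0 : ℝ) 1 zero_le_one (4 * (x : ℝ) - 1) * ξ

/-- The expansion parameter on the second half: `0` at `1/2`, `1` on `[3/4, 1]`. -/
noncomputable def cPar (x : unitInterval) : unitInterval :=
  Set.projIcc (0 : ℝ) 1 zero_le_one (4 * (x : ℝ) - 2)

section connecting

variable {d₀ : ℕ → ℕ} {B : Type} [CStarAlgebra B] (C : ConeAlg d₀ B)
variable {ι : Type} [Fintype ι] [DecidableEq ι]

open Classical in
/-- The path of *-homomorphisms from `ev_0 ⊗ 1_d` to `π_k ∘ ev_ξ`. -/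
noncomputable def cpath (k : ℕ) (ξ x : unitInterval) (f : C(unitInterval, Mt ι B)) :
    Mt (Fin (d₀ k) × ι) B :=
  if (x : ℝ) ≤ 1 / 2 then dAmp (d₀ k) (Mt.map (C.h (aPar x)) (f (bPar ξ x)))
  else piAmp (C.π k) (Mt.map (C.h (cPar x)) (f ξ))

theorem Conn_h_joint {X : Type*} [TopologicalSpace X] {s : X → unitInterval} {b : X → B}
    (hs : Continuous s) (hb : Continuous b) : Continuous fun x => C.h (s x) (b x) := by
  rw [continuous_iff_continuousAt]
  intro x₀
  rw [ContinuousAt, tendsto_iff_norm_sub_tendsto_zero]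
  have h1 : Tendsto (fun x => ‖b x - b x₀‖ + ‖C.h (s x) (b x₀) - C.h (s x₀) (b x₀)‖) (𝓝 x₀)
      (𝓝 (0 + 0)) := by
    refine Tendsto.add ?_ ?_
    · exact tendsto_iff_norm_sub_tendsto_zero.1 hb.continuousAt
    · exact tendsto_iff_norm_sub_tendsto_zero.1 ((C.h_cont (b x₀)).comp hs).continuousAt
  rw [add_zero] at h1
  refine squeeze_zero (fun x => norm_nonneg _) (fun x => ?_) h1
  have h2 : C.h (s x) (b x) - C.h (s x₀) (b x₀) =
      C.h (s x) (b x - b x₀) + (C.h (s x) (b x₀) - C.h (s x₀) (b x₀)) := by
    rw [map_sub]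
    abel
  rw [h2]
  refine (norm_add_le _ _).trans (add_le_add_left ?_ _)
  exact NonUnitalStarAlgHom.norm_apply_le (C.h (s x)) _

theorem Conn_aPar_cont : Continuous aPar := by
  unfold aPar
  exact continuous_projIcc.comp (by fun_prop)

theorem Conn_bPar_cont (ξ : unitInterval) : Continuous (bPar ξ) := by
  unfold bPar
  exact (continuous_projIcc.comp (by fun_prop)).mul continuous_const

theorem Conn_cPar_cont : Continuous cPar := by
  unfold cPar
  exact continuous_projIcc.comp (by fun_prop)

theorem Conn_dAmp_cont (d : ℕ) : Continuous (dAmp d : Mt ι B → Mt (Fin d × ι) B) := by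
  rw [Mt.continuous_iff]
  intro i j
  by_cases h : i.1 = j.1
  · have h1 : (fun M : Mt ι B => (dAmp d M : Mt (Fin d × ι) B) i j) = fun M => M i.2 j.2 := by
      funext M
      exact if_pos h
    rw [h1]
    exact Mt.continuous_entry _ _
  · have h1 : (fun M : Mt ι B => (dAmp d M : Mt (Fin d × ι) B) i j) = fun M => 0 := by
      funext M
      exact if_neg h
    rw [h1]
    exact continuous_const

theorem Conn_piAmp_cont {d : ℕ} (π : B →⋆ₐ[ℂ] Mt (Fin d) ℂ) :
    Continuous (piAmp π : Mt ι B → Mt (Fin d × ι) B) := by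
  rw [Mt.continuous_iff]
  intro i j
  have h0 : Continuous π := by
    refine AddMonoidHomClass.continuous_of_bound π 1 fun x => ?_
    rw [one_mul]
    exact NonUnitalStarAlgHom.norm_apply_le π x
  exact (continuous_algebraMap ℂ B).comp
    ((Mt.continuous_entry i.1 j.1).comp (h0.comp (Mt.continuous_entry i.2 j.2)))

theorem cpath_cont (k : ℕ) (ξ : unitInterval) (f : C(unitInterval, Mt ι B)) :
    Continuous fun x => cpath C k ξ x f := by
  unfold cpath
  refine Continuous.if_le ?_ ?_ continuous_subtype_val continuous_const ?_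
  · refine (Conn_dAmp_cont (d₀ k)).comp ?_
    rw [Mt.continuous_iff]
    intro i j
    exact Conn_h_joint C Conn_aPar_cont
      ((Mt.continuous_entry i j).comp (f.continuous.comp (Conn_bPar_cont ξ)))
  · refine (Conn_piAmp_cont (C.π k)).comp ?_
    rw [Mt.continuous_iff]
    intro i j
    exact (C.h_cont _).comp Conn_cPar_cont
  · intro x hx
    have ha : aPar x = 0 := by
      unfold aPar
      rw [hx]
      exact Set.projIcc_of_le_left _ (by norm_num)
    have hc : cPar x = 0 := by
      unfold cPar
      rw [hx]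
      exact Set.projIcc_of_le_left _ (by norm_num)
    have hb : bPar ξ x = ξ := by
      unfold bPar
      rw [hx]
      have h1 : Set.projIcc (0 : ℝ) 1 zero_le_one (4 * (1 / 2) - 1) = 1 :=
        Set.projIcc_of_right_le _ (by norm_num)
      rw [h1, one_mul]
    rw [ha, hb, hc]
    ext i j
    have hR : (piAmp (C.π k) (Mt.map (C.h 0) (f ξ)) : Mt (Fin (d₀ k) × ι) B) i j =
        algebraMap ℂ B ((C.π k (C.h 0 (f ξ i.2 j.2)) : Mt (Fin (d₀ k)) ℂ) i.1 j.1) := rfl
    have hL : (dAmp (d₀ k) (Mt.map (C.h 0) (f ξ)) : Mt (Fin (d₀ k) × ι) B) i j =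
        if i.1 = j.1 then C.h 0 (f ξ i.2 j.2) else 0 := rfl
    have hπ : C.π k (algebraMap ℂ B (C.ε (f ξ i.2 j.2))) =
        algebraMap ℂ (Mt (Fin (d₀ k)) ℂ) (C.ε (f ξ i.2 j.2)) :=
      AlgHomClass.commutes (C.π k) _
    rw [hL, hR, C.h_zero, hπ, Mt.algebraMap_apply]
    split_ifs
    · rfl
    · exact (map_zero _).symm

theorem Conn_cpath_one (k : ℕ) (ξ x : unitInterval) :
    cpath C k ξ x (1 : C(unitInterval, Mt ι B)) = 1 := by
  unfold cpath
  split_ifs
  · rw [ContinuousMap.one_apply, map_one, map_one]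
  · rw [ContinuousMap.one_apply, map_one, map_one]

theorem Conn_cpath_mul (k : ℕ) (ξ x : unitInterval) (f g : C(unitInterval, Mt ι B)) :
    cpath C k ξ x (f * g) = cpath C k ξ x f * cpath C k ξ x g := by
  unfold cpath
  split_ifs
  · rw [ContinuousMap.mul_apply, map_mul, map_mul]
  · rw [ContinuousMap.mul_apply, map_mul, map_mul]

theorem Conn_cpath_add (k : ℕ) (ξ x : unitInterval) (f g : C(unitInterval, Mt ι B)) :
    cpath C k ξ x (f + g) = cpath C k ξ x f + cpath C k ξ x g := by
  unfold cpath
  split_ifs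
  · rw [ContinuousMap.add_apply, map_add, map_add]
  · rw [ContinuousMap.add_apply, map_add, map_add]

theorem Conn_cpath_smul (k : ℕ) (ξ x : unitInterval) (c : ℂ) (f : C(unitInterval, Mt ι B)) :
    cpath C k ξ x (c • f) = c • cpath C k ξ x f := by
  unfold cpath
  split_ifs
  · rw [ContinuousMap.smul_apply, map_smul, map_smul]
  · rw [ContinuousMap.smul_apply, map_smul, map_smul]

theorem Conn_cpath_star (k : ℕ) (ξ x : unitInterval) (f : C(unitInterval, Mt ι B)) :
    cpath C k ξ x (star f) = star (cpath C k ξ x f) := by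
  unfold cpath
  split_ifs
  · rw [ContinuousMap.star_apply, map_star, map_star]
  · rw [ContinuousMap.star_apply, map_star, map_star]

theorem Conn_Phi_smul (k : ℕ) (ξ x : unitInterval) (m a b : ℕ) (c : ℂ)
    (f : C(unitInterval, Mt ι B)) :
    slot m a b ((c • f) x) (piAmp (C.π k) ((c • f) ξ)) (cpath C k ξ x (c • f)) =
      c • slot m a b (f x) (piAmp (C.π k) (f ξ)) (cpath C k ξ x f) := by
  rw [Conn_cpath_smul, ContinuousMap.smul_apply, ContinuousMap.smul_apply, map_smul, slot_smul]

theorem Conn_Phi_one (k : ℕ) (ξ x : unitInterval) (m a b : ℕ) :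
    slot m a b ((1 : C(unitInterval, Mt ι B)) x)
      (piAmp (C.π k) ((1 : C(unitInterval, Mt ι B)) ξ))
      (cpath C k ξ x (1 : C(unitInterval, Mt ι B))) = 1 := by
  rw [Conn_cpath_one, ContinuousMap.one_apply, ContinuousMap.one_apply, map_one, slot_one]

theorem Conn_slot_cont (m a b : ℕ) {d : ℕ} {X : Type*} [TopologicalSpace X] {F : X → Mt ι B}
    {G H : X → Mt (Fin d × ι) B} (hF : Continuous F) (hG : Continuous G) (hH : Continuous H) :
    Continuous fun x => slot m a b (F x) (G x) (H x) := by
  have h1 := Mt.continuous_iff.1 hF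
  have h2 := Mt.continuous_iff.1 hG
  have h3 := Mt.continuous_iff.1 hH
  rw [Mt.continuous_iff]
  rintro (⟨u, i⟩ | ⟨u, i⟩ | ⟨u, i⟩) (⟨v, j⟩ | ⟨v, j⟩ | ⟨v, j⟩)
  · change Continuous fun x => if u = v then F x i j else 0
    split_ifs
    · exact h1 i j
    · exact continuous_const
  · exact continuous_const
  · exact continuous_const
  · exact continuous_const
  · change Continuous fun x => if u = v then G x i j else 0
    split_ifs
    · exact h2 i j
    · exact continuous_const
  · exact continuous_const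
  · exact continuous_const
  · exact continuous_const
  · change Continuous fun x => if u = v then H x i j else 0
    split_ifs
    · exact h3 i j
    · exact continuous_const

/-- The connecting map, before reindexing. -/
noncomputable def Phi0 (k : ℕ) (ξ : unitInterval) (m a b : ℕ) :
    C(unitInterval, Mt ι B) →⋆ₐ[ℂ] C(unitInterval, Mt (SlotIdx m a b (d₀ k) ι) B) where
  toFun f := ⟨fun x => slot m a b (f x) (piAmp (C.π k) (f ξ)) (cpath C k ξ x f),
    Conn_slot_cont m a b f.continuous continuous_const (cpath_cont C k ξ f)⟩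
  map_one' := by
    refine ContinuousMap.ext fun x => ?_
    exact Conn_Phi_one C k ξ x m a b
  map_mul' f g := by
    refine ContinuousMap.ext fun x => ?_
    change slot m a b ((f * g) x) (piAmp (C.π k) ((f * g) ξ)) (cpath C k ξ x (f * g)) =
      slot m a b (f x) (piAmp (C.π k) (f ξ)) (cpath C k ξ x f) *
        slot m a b (g x) (piAmp (C.π k) (g ξ)) (cpath C k ξ x g)
    rw [Conn_cpath_mul, ContinuousMap.mul_apply, ContinuousMap.mul_apply, map_mul, slot_mul]
  map_zero' := by
    refine ContinuousMap.ext fun x => ?_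
    have h := Conn_Phi_smul C k ξ x m a b (0 : ℂ) (0 : C(unitInterval, Mt ι B))
    have h0 : ((0 : ℂ) • (0 : C(unitInterval, Mt ι B))) = 0 :=
      ContinuousMap.ext fun y => smul_zero (0 : ℂ)
    rw [h0, zero_smul] at h
    exact h
  map_add' f g := by
    refine ContinuousMap.ext fun x => ?_
    change slot m a b ((f + g) x) (piAmp (C.π k) ((f + g) ξ)) (cpath C k ξ x (f + g)) =
      slot m a b (f x) (piAmp (C.π k) (f ξ)) (cpath C k ξ x f) +
        slot m a b (g x) (piAmp (C.π k) (g ξ)) (cpath C k ξ x g)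
    rw [Conn_cpath_add, ContinuousMap.add_apply, ContinuousMap.add_apply, map_add, slot_add]
  commutes' c := by
    refine ContinuousMap.ext fun x => ?_
    rw [Algebra.algebraMap_eq_smul_one, Algebra.algebraMap_eq_smul_one]
    change slot m a b ((c • (1 : C(unitInterval, Mt ι B))) x)
        (piAmp (C.π k) ((c • (1 : C(unitInterval, Mt ι B))) ξ))
        (cpath C k ξ x (c • (1 : C(unitInterval, Mt ι B)))) = c • 1
    rw [Conn_Phi_smul, Conn_Phi_one]
  map_star' f := by
    refine ContinuousMap.ext fun x => ?_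
    change slot m a b ((star f) x) (piAmp (C.π k) ((star f) ξ)) (cpath C k ξ x (star f)) =
      star (slot m a b (f x) (piAmp (C.π k) (f ξ)) (cpath C k ξ x f))
    rw [Conn_cpath_star, ContinuousMap.star_apply, ContinuousMap.star_apply, map_star, slot_star]

theorem Phi0_apply (k : ℕ) (ξ : unitInterval) (m a b : ℕ) (f : C(unitInterval, Mt ι B))
    (x : unitInterval) :
    Phi0 C k ξ m a b f x = slot m a b (f x) (piAmp (C.π k) (f ξ)) (cpath C k ξ x f) := rfl

end connecting

end Pool.Agent.H.MP_e11395_an
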