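import Pool.Agent.H.MP_e11395_an.A.AData
import Pool.Agent.H.MP_e11395_an.A.DMain
import Pool.Agent.H.MP_e11395_an.B.SF
import Pool.Agent.H.MP_e11395_an.B.Separ
import Pool.Agent.H.MP_e11395_an.B.TEc
import Pool.Agent.H.MP_e11395_an.B.SimpleMain
import Pool.Agent.H.MP_e11395_an.C.Final
import Pool.Agent.H.MP_e11395_an.B.Exact
import Pool.Agent.H.MP_e11395_an.D.Main
import Pool.Agent.H.MP_e11395_an.E.Final
import Pool.Agent.H.MP_e11395_an.A.AOf
import Pool.Agent.H.MP_e11395_an.A.BNuc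

/-!
# The final assembly
-/

set_option autoImplicit false

namespace Pool.Agent.H.MP_e11395_an

theorem exists_AData {G : Type} [Group G] (W : TwG G) (hU : W.UniqTr) (hK : W.Ker)
    (hτ : IsTr W.tauD) : Nonempty (AData W) :=
  PA.exists_AData_of W hU hτ (PA.piPrime W) (PA.piPrime_injective W) (PA.nucData W hK)

theorem statement : Statement := by
  obtain ⟨P⟩ := exists_AData tw uniqTr_tw ker_tw (tauD_isTr tw)
  obtain ⟨T⟩ := exists_tower (d := P.d)
  have lim := PB.isLimit_AK T P.J P.π' P.d_pos P.π'_inj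
  have hex := PB.exact_AK T P.J P.π' P.d_pos P.π'_inj P.nuc
  have hs := limit_simple P.d_pos P.sep lim
  obtain ⟨τ, hτ, -⟩ := TowerData.D_two lim (0 : unitInterval) P.q₀_ext
  obtain ⟨hK0, hK1⟩ := partC T P.C _ lim τ.toAddMonoidHom hτ.comm hτ.one
  exact ⟨_, _, hs, limit_separable P.separable lim, hex, simple_stablyFinite hs hτ.toIsTr,
    hK0, hK1, no_anti T P.C P.extTr P.q₀ P.q₀_surj P.q₀_ext lim hs⟩

end Pool.Agent.H.MP_e11395_an
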