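import Pool.Agent.H.MP_e11395_an.Mt

/-!
# Contractible algebras and block diagonal matrices with slots
-/

set_option autoImplicit false
set_option linter.unusedSectionVars false

open Filter Topology

namespace Pool.Agent.H.MP_e11395_an


/-- A unital C*-algebra with a contraction to the scalars and finite dimensional
representations. -/
structure ConeAlg (d : ℕ → ℕ) (B : Type) [CStarAlgebra B] where
  h : unitInterval → (B →⋆ₐ[ℂ] B)
  h_cont : ∀ b : B, Continuous fun s : unitInterval => h s b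
  h_one : ∀ b, h 1 b = b
  ε : B →⋆ₐ[ℂ] ℂ
  h_zero : ∀ b, h 0 b = algebraMap ℂ B (ε b)
  π : ∀ k, B →⋆ₐ[ℂ] Mt (Fin (d k)) ℂ

/-- The finite dimensional representations separate the points. -/
def ConeAlg.Sep {d : ℕ → ℕ} {B : Type} [CStarAlgebra B] (C : ConeAlg d B) : Prop :=
  ∀ b, (∀ k, C.π k b = 0) → b = 0

/-- A morphism of contractible algebras. -/
structure ConeAlg.Hom {d : ℕ → ℕ} {B B' : Type} [CStarAlgebra B] [CStarAlgebra B']
    (C : ConeAlg d B) (C' : ConeAlg d B') where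
  j : B →⋆ₐ[ℂ] B'
  inj : Function.Injective j
  h : ∀ s b, C'.h s (j b) = j (C.h s b)
  ε : ∀ b, C'.ε (j b) = C.ε b
  π : ∀ k b, C'.π k (j b) = C.π k b

/-! ### Slots -/

section slots

variable {B : Type} [CStarAlgebra B] {ι : Type} [Fintype ι] [DecidableEq ι]

/-- The index set of the matrices at the next stage: `m` main slots, `a` finite dimensional slot
groups, `b` transitional slot groups. -/
abbrev SlotIdx (m a b d : ℕ) (ι : Type) : Type :=
  (Fin m × ι) ⊕ ((Fin a × (Fin d × ι)) ⊕ (Fin b × (Fin d × ι)))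

variable (m a b : ℕ) {d : ℕ}

/-- `(M₀ ⊗ 1_m) ⊕ (M₁ ⊗ 1_a) ⊕ (M₂ ⊗ 1_b)`. -/
def slot (M₀ : Mt ι B) (M₁ M₂ : Mt (Fin d × ι) B) : Mt (SlotIdx m a b d ι) B :=
  Mt.of fun i j => match i, j with
    | Sum.inl (u, i), Sum.inl (v, j) => if u = v then M₀ i j else 0
    | Sum.inr (Sum.inl (u, i)), Sum.inr (Sum.inl (v, j)) => if u = v then M₁ i j else 0
    | Sum.inr (Sum.inr (u, i)), Sum.inr (Sum.inr (v, j)) => if u = v then M₂ i j else 0
    | _, _ => 0

theorem Slot_aa (M₀ : Mt ι B) (M₁ M₂ : Mt (Fin d × ι) B) (u v : Fin m) (i j : ι) :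
    slot m a b M₀ M₁ M₂ (Sum.inl (u, i)) (Sum.inl (v, j)) = if u = v then M₀ i j else 0 := rfl

theorem Slot_bb (M₀ : Mt ι B) (M₁ M₂ : Mt (Fin d × ι) B) (u v : Fin a) (i j : Fin d × ι) :
    slot m a b M₀ M₁ M₂ (Sum.inr (Sum.inl (u, i))) (Sum.inr (Sum.inl (v, j))) =
      if u = v then M₁ i j else 0 := rfl

theorem Slot_cc (M₀ : Mt ι B) (M₁ M₂ : Mt (Fin d × ι) B) (u v : Fin b) (i j : Fin d × ι) :
    slot m a b M₀ M₁ M₂ (Sum.inr (Sum.inr (u, i))) (Sum.inr (Sum.inr (v, j))) =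
      if u = v then M₂ i j else 0 := rfl

theorem Slot_ab (M₀ : Mt ι B) (M₁ M₂ : Mt (Fin d × ι) B) (x : Fin m × ι)
    (y : (Fin a × (Fin d × ι)) ⊕ (Fin b × (Fin d × ι))) :
    slot m a b M₀ M₁ M₂ (Sum.inl x) (Sum.inr y) = 0 := by
  rcases y with y | y <;> rfl

theorem Slot_ba (M₀ : Mt ι B) (M₁ M₂ : Mt (Fin d × ι) B) (x : Fin m × ι)
    (y : (Fin a × (Fin d × ι)) ⊕ (Fin b × (Fin d × ι))) :
    slot m a b M₀ M₁ M₂ (Sum.inr y) (Sum.inl x) = 0 := by
  rcases y with y | y <;> rfl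

theorem Slot_bc (M₀ : Mt ι B) (M₁ M₂ : Mt (Fin d × ι) B) (x : Fin a × (Fin d × ι))
    (y : Fin b × (Fin d × ι)) :
    slot m a b M₀ M₁ M₂ (Sum.inr (Sum.inl x)) (Sum.inr (Sum.inr y)) = 0 := rfl

theorem Slot_cb (M₀ : Mt ι B) (M₁ M₂ : Mt (Fin d × ι) B) (x : Fin a × (Fin d × ι))
    (y : Fin b × (Fin d × ι)) :
    slot m a b M₀ M₁ M₂ (Sum.inr (Sum.inr y)) (Sum.inr (Sum.inl x)) = 0 := rfl

theorem Slot_sum {m' : ℕ} {κ : Type} [Fintype κ] (u v : Fin m') (f g : κ → B) :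
    (∑ w : Fin m', ∑ k : κ, (if u = w then f k else 0) * (if w = v then g k else 0)) =
      if u = v then ∑ k, f k * g k else 0 := by
  rw [Finset.sum_eq_single u]
  · by_cases h : u = v
    · simp [h]
    · simp [h]
  · intro w _ hw
    refine Finset.sum_eq_zero fun k _ => ?_
    rw [if_neg (fun h => hw h.symm), zero_mul]
  · intro h
    exact absurd (Finset.mem_univ _) h

theorem Slot_sum_apply {ι' : Type} (f : ι' → Mt (Fin d) ℂ) (s : Finset ι') (i j : Fin d) :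
    (∑ x ∈ s, f x) i j = ∑ x ∈ s, f x i j := by
  classical
  induction s using Finset.induction_on with
  | empty => rw [Finset.sum_empty, Finset.sum_empty]; rfl
  | insert x s hx ih => rw [Finset.sum_insert hx, Finset.sum_insert hx, Mt.add_apply, ih]

/-- Two matrices over the slot index set agree if all their blocks agree. -/
theorem Slot_ext {X Y : Mt (SlotIdx m a b d ι) B}
    (h1 : ∀ u v i j, X (Sum.inl (u, i)) (Sum.inl (v, j)) = Y (Sum.inl (u, i)) (Sum.inl (v, j)))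
    (h2 : ∀ u v i j, X (Sum.inr (Sum.inl (u, i))) (Sum.inr (Sum.inl (v, j))) =
      Y (Sum.inr (Sum.inl (u, i))) (Sum.inr (Sum.inl (v, j))))
    (h3 : ∀ u v i j, X (Sum.inr (Sum.inr (u, i))) (Sum.inr (Sum.inr (v, j))) =
      Y (Sum.inr (Sum.inr (u, i))) (Sum.inr (Sum.inr (v, j))))
    (h4 : ∀ x y, X (Sum.inl x) (Sum.inr y) = Y (Sum.inl x) (Sum.inr y))
    (h5 : ∀ x y, X (Sum.inr y) (Sum.inl x) = Y (Sum.inr y) (Sum.inl x))
    (h6 : ∀ x y, X (Sum.inr (Sum.inl x)) (Sum.inr (Sum.inr y)) =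
      Y (Sum.inr (Sum.inl x)) (Sum.inr (Sum.inr y)))
    (h7 : ∀ x y, X (Sum.inr (Sum.inr y)) (Sum.inr (Sum.inl x)) =
      Y (Sum.inr (Sum.inr y)) (Sum.inr (Sum.inl x))) : X = Y := by
  ext i j
  rcases i with ⟨u, i⟩ | ⟨⟨u, i⟩ | ⟨u, i⟩⟩ <;> rcases j with ⟨v, j⟩ | ⟨⟨v, j⟩ | ⟨v, j⟩⟩
  · exact h1 _ _ _ _
  · exact h4 _ _
  · exact h4 _ _
  · exact h5 _ _
  · exact h2 _ _ _ _
  · exact h6 _ _
  · exact h5 _ _
  · exact h7 _ _
  · exact h3 _ _ _ _

theorem slot_one : slot m a b (1 : Mt ι B) (1 : Mt (Fin d × ι) B) 1 = 1 := by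
  apply Slot_ext
  · intro u v i j
    rw [Slot_aa, Mt.one_apply, Mt.one_apply]
    by_cases h1 : u = v <;> by_cases h2 : i = j <;> simp [h1, h2]
  · intro u v i j
    rw [Slot_bb, Mt.one_apply, Mt.one_apply]
    by_cases h1 : u = v <;> by_cases h2 : i = j <;> simp [h1, h2]
  · intro u v i j
    rw [Slot_cc, Mt.one_apply, Mt.one_apply]
    by_cases h1 : u = v <;> by_cases h2 : i = j <;> simp [h1, h2]
  · intro x y
    rw [Slot_ab, Mt.one_apply, if_neg (by simp)]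
  · intro x y
    rw [Slot_ba, Mt.one_apply, if_neg (by simp)]
  · intro x y
    rw [Slot_bc, Mt.one_apply, if_neg (by simp)]
  · intro x y
    rw [Slot_cb, Mt.one_apply, if_neg (by simp)]

theorem slot_mul (M₀ N₀ : Mt ι B) (M₁ M₂ N₁ N₂ : Mt (Fin d × ι) B) :
    slot m a b (M₀ * N₀) (M₁ * N₁) (M₂ * N₂) = slot m a b M₀ M₁ M₂ * slot m a b N₀ N₁ N₂ := by
  apply Slot_ext
  · intro u v i j
    rw [Slot_aa, Mt.mul_apply, Mt.mul_apply, Fintype.sum_sum_type]
    simp only [Slot_ab, Slot_ba, zero_mul, Finset.sum_const_zero, add_zero]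
    rw [Fintype.sum_prod_type]
    simp only [Slot_aa]
    exact (Slot_sum u v (fun k => M₀ i k) (fun k => N₀ k j)).symm
  · intro u v i j
    rw [Slot_bb, Mt.mul_apply, Mt.mul_apply, Fintype.sum_sum_type, Fintype.sum_sum_type]
    simp only [Slot_ab, Slot_ba, Slot_bc, Slot_cb, zero_mul, Finset.sum_const_zero, add_zero,
      zero_add]
    conv_rhs => rw [Fintype.sum_prod_type]
    simp only [Slot_bb]
    exact (Slot_sum u v (fun k => M₁ i k) (fun k => N₁ k j)).symm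
  · intro u v i j
    rw [Slot_cc, Mt.mul_apply, Mt.mul_apply, Fintype.sum_sum_type, Fintype.sum_sum_type]
    simp only [Slot_ba, Slot_cb, zero_mul, Finset.sum_const_zero, zero_add]
    conv_rhs => rw [Fintype.sum_prod_type]
    simp only [Slot_cc]
    exact (Slot_sum u v (fun k => M₂ i k) (fun k => N₂ k j)).symm
  · intro x y
    rw [Slot_ab, Mt.mul_apply, Fintype.sum_sum_type]
    simp only [Slot_ab, zero_mul, mul_zero, Finset.sum_const_zero, add_zero]
  · intro x y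
    rw [Slot_ba, Mt.mul_apply, Fintype.sum_sum_type]
    simp only [Slot_ba, zero_mul, mul_zero, Finset.sum_const_zero, add_zero]
  · intro x y
    rw [Slot_bc, Mt.mul_apply, Fintype.sum_sum_type, Fintype.sum_sum_type]
    simp only [Slot_ba, Slot_bc, zero_mul, mul_zero, Finset.sum_const_zero, add_zero]
  · intro x y
    rw [Slot_cb, Mt.mul_apply, Fintype.sum_sum_type, Fintype.sum_sum_type]
    simp only [Slot_ba, Slot_cb, zero_mul, mul_zero, Finset.sum_const_zero, add_zero]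

theorem slot_add (M₀ N₀ : Mt ι B) (M₁ M₂ N₁ N₂ : Mt (Fin d × ι) B) :
    slot m a b (M₀ + N₀) (M₁ + N₁) (M₂ + N₂) = slot m a b M₀ M₁ M₂ + slot m a b N₀ N₁ N₂ := by
  apply Slot_ext
  · intro u v i j
    rw [Mt.add_apply]
    simp only [Slot_aa, Mt.add_apply]
    split_ifs <;> simp
  · intro u v i j
    rw [Mt.add_apply]
    simp only [Slot_bb, Mt.add_apply]
    split_ifs <;> simp
  · intro u v i j
    rw [Mt.add_apply]
    simp only [Slot_cc, Mt.add_apply]
    split_ifs <;> simp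
  · intro x y
    rw [Mt.add_apply, Slot_ab, Slot_ab, Slot_ab, add_zero]
  · intro x y
    rw [Mt.add_apply, Slot_ba, Slot_ba, Slot_ba, add_zero]
  · intro x y
    rw [Mt.add_apply, Slot_bc, Slot_bc, Slot_bc, add_zero]
  · intro x y
    rw [Mt.add_apply, Slot_cb, Slot_cb, Slot_cb, add_zero]

theorem slot_smul (c : ℂ) (M₀ : Mt ι B) (M₁ M₂ : Mt (Fin d × ι) B) :
    slot m a b (c • M₀) (c • M₁) (c • M₂) = c • slot m a b M₀ M₁ M₂ := by
  apply Slot_ext
  · intro u v i j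
    rw [Mt.smul_apply]
    simp only [Slot_aa, Mt.smul_apply]
    split_ifs <;> simp
  · intro u v i j
    rw [Mt.smul_apply]
    simp only [Slot_bb, Mt.smul_apply]
    split_ifs <;> simp
  · intro u v i j
    rw [Mt.smul_apply]
    simp only [Slot_cc, Mt.smul_apply]
    split_ifs <;> simp
  · intro x y
    rw [Mt.smul_apply, Slot_ab, Slot_ab, smul_zero]
  · intro x y
    rw [Mt.smul_apply, Slot_ba, Slot_ba, smul_zero]
  · intro x y
    rw [Mt.smul_apply, Slot_bc, Slot_bc, smul_zero]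
  · intro x y
    rw [Mt.smul_apply, Slot_cb, Slot_cb, smul_zero]

theorem slot_star (M₀ : Mt ι B) (M₁ M₂ : Mt (Fin d × ι) B) :
    slot m a b (star M₀) (star M₁) (star M₂) = star (slot m a b M₀ M₁ M₂) := by
  apply Slot_ext
  · intro u v i j
    rw [Mt.star_apply]
    simp only [Slot_aa, Mt.star_apply, eq_comm (a := v)]
    split_ifs <;> simp
  · intro u v i j
    rw [Mt.star_apply]
    simp only [Slot_bb, Mt.star_apply, eq_comm (a := v)]
    split_ifs <;> simp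
  · intro u v i j
    rw [Mt.star_apply]
    simp only [Slot_cc, Mt.star_apply, eq_comm (a := v)]
    split_ifs <;> simp
  · intro x y
    rw [Mt.star_apply, Slot_ab, Slot_ba, star_zero]
  · intro x y
    rw [Mt.star_apply, Slot_ab, Slot_ba, star_zero]
  · intro x y
    rw [Mt.star_apply, Slot_bc, Slot_cb, star_zero]
  · intro x y
    rw [Mt.star_apply, Slot_bc, Slot_cb, star_zero]

/-- `(g ⊗ 1_μ) ⊕ M`. -/
def two {κ : Type} [Fintype κ] [DecidableEq κ] (μ : ℕ) (g : Mt κ B) (M : Mt (Fin d × ι) B) :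
    Mt ((Fin μ × κ) ⊕ (Fin d × ι)) B :=
  Mt.of fun i j => match i, j with
    | Sum.inl (u, i), Sum.inl (v, j) => if u = v then g i j else 0
    | Sum.inr i, Sum.inr j => M i j
    | _, _ => 0

/-- `M ⊗ 1_d`. -/
noncomputable def dAmp (d : ℕ) : Mt ι B →⋆ₐ[ℂ] Mt (Fin d × ι) B :=
  Mt.amp (Equiv.prodComm (Fin d) ι)

/-- The finite dimensional slot: `π ⊗ id`. -/
noncomputable def piAmp (π : B →⋆ₐ[ℂ] Mt (Fin d) ℂ) : Mt ι B →⋆ₐ[ℂ] Mt (Fin d × ι) B where
  toFun M := Mt.of fun i j => algebraMap ℂ B (π (M i.2 j.2) i.1 j.1)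
  map_one' := by
    ext i j
    rw [Mt.of_apply, Mt.one_apply, Mt.one_apply]
    obtain ⟨i1, i2⟩ := i
    obtain ⟨j1, j2⟩ := j
    simp only [Prod.mk.injEq]
    by_cases h2 : i2 = j2
    · rw [if_pos h2, map_one, Mt.one_apply]
      by_cases h1 : i1 = j1
      · rw [if_pos h1, map_one, if_pos ⟨h1, h2⟩]
      · rw [if_neg h1, map_zero, if_neg (fun h => h1 h.1)]
    · rw [if_neg h2, map_zero, Mt.zero_apply, map_zero, if_neg (fun h => h2 h.2)]
  map_mul' M N := by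
    ext i j
    obtain ⟨i1, i2⟩ := i
    obtain ⟨j1, j2⟩ := j
    rw [Mt.of_apply, Mt.mul_apply, Mt.mul_apply, Fintype.sum_prod_type_right]
    simp only [Mt.of_apply]
    have e1 : π (∑ k, M i2 k * N k j2) i1 j1 = ∑ k, π (M i2 k * N k j2) i1 j1 := by
      rw [map_sum]
      exact Slot_sum_apply _ _ i1 j1
    rw [e1, map_sum]
    refine Finset.sum_congr rfl fun k _ => ?_
    rw [map_mul, Mt.mul_apply, map_sum]
    refine Finset.sum_congr rfl fun l _ => ?_
    rw [map_mul]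
  map_zero' := by
    ext i j
    rw [Mt.of_apply, Mt.zero_apply, Mt.zero_apply, map_zero, Mt.zero_apply, map_zero]
  map_add' M N := by
    ext i j
    rw [Mt.of_apply, Mt.add_apply, Mt.add_apply, map_add, Mt.add_apply, map_add]
    rfl
  commutes' c := by
    ext i j
    rw [Mt.of_apply, Mt.algebraMap_apply, Mt.algebraMap_apply]
    obtain ⟨i1, i2⟩ := i
    obtain ⟨j1, j2⟩ := j
    simp only [Prod.mk.injEq]
    by_cases h2 : i2 = j2
    · rw [if_pos h2, AlgHomClass.commutes, Mt.algebraMap_apply]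
      by_cases h1 : i1 = j1
      · rw [if_pos h1, if_pos ⟨h1, h2⟩]
        rfl
      · rw [if_neg h1, map_zero, if_neg (fun h => h1 h.1)]
    · rw [if_neg h2, map_zero, Mt.zero_apply, map_zero, if_neg (fun h => h2 h.2)]
  map_star' M := by
    ext i j
    rw [Mt.of_apply, Mt.star_apply, Mt.star_apply, map_star, Mt.star_apply, Mt.of_apply]
    exact algebraMap_star_comm _

@[simp] theorem piAmp_apply (π : B →⋆ₐ[ℂ] Mt (Fin d) ℂ) (M : Mt ι B) (i j : Fin d × ι) :
    piAmp π M i j = algebraMap ℂ B (π (M i.2 j.2) i.1 j.1) := rfl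

end slots

end Pool.Agent.H.MP_e11395_an
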