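import Pool.Agent.H.MP_e11395_an.Conn

/-!
# The combinatorial data, the building blocks and the connecting maps
-/

set_option autoImplicit false
set_option linter.unusedSectionVars false

open Filter Topology

namespace Pool.Agent.H.MP_e11395_an

/-! ### The combinatorial data of the inductive system -/

/-- The combinatorial data of the inductive system. -/
structure TowerData (d : ℕ → ℕ) where
  p : ℕ → ℕ
  q : ℕ → ℕ
  p_zero : p 0 = 1
  q_zero : q 0 = 1
  coprime : ∀ n, Nat.Coprime (p n) (q n)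
  k₀ : ℕ → ℕ
  k₁ : ℕ → ℕ
  p_succ : ∀ n, p (n + 1) = k₀ n * p n
  q_succ : ∀ n, q (n + 1) = k₁ n * q n
  q_lt_p : ∀ n, q (n + 1) < p (n + 1)
  q_pos : ∀ n, 0 < q n
  /-- which finite dimensional representation is used -/
  sel : ℕ → ℕ
  /-- where the finite dimensional representation is used -/
  ξ : ℕ → unitInterval
  ξ_pos : ∀ n, 0 < (ξ n : ℝ)
  ξ_lt : ∀ n, (ξ n : ℝ) < 1
  /-- the number of main slots -/
  m : ℕ → ℕ
  m_eq : ∀ n, m n + d (sel n) * p (n + 1) = k₀ n * k₁ n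
  μ₀ : ℕ → ℕ
  μ₀_eq : ∀ n, μ₀ n + d (sel n) * q n = k₀ n
  μ₁ : ℕ → ℕ
  μ₁_eq : ∀ n, μ₁ n + d (sel n) * p n = k₁ n
  small₀ : ∀ n, (d (sel n) * q n : ℝ) ≤ (1 / 8 : ℝ) ^ (n + 1) * k₀ n
  small₁ : ∀ n, (d (sel n) * p n : ℝ) ≤ (1 / 8 : ℝ) ^ (n + 1) * k₁ n
  recur : ∀ (k : ℕ) (x : unitInterval) (δ : ℝ), 0 < δ → ∀ N, ∃ n, N ≤ n ∧ sel n = k ∧
    |(ξ n : ℝ) - x| < δ
  e₀ : ∀ n, Fin (p n * q n) ≃ Fin (p n) × Fin (q n)
  e₁ : ∀ n, Fin (p n * q n) ≃ Fin (q n) × Fin (p n)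
  E : ∀ n, SlotIdx (m n) (q (n + 1)) (p (n + 1) - q (n + 1)) (d (sel n)) (Fin (p n * q n)) ≃
    Fin (p (n + 1) * q (n + 1))
  E_zero : ∀ n (h : 0 < m n) (i : Fin (p n * q n)), ((E n (Sum.inl (⟨0, h⟩, i))).val = i.val)
  Z₀ : ∀ n, (Fin (μ₀ n) × Fin (p n)) ⊕ (Fin (d (sel n)) × Fin (p n * q n)) ≃ Fin (p (n + 1))
  Z₁ : ∀ n, (Fin (μ₁ n) × Fin (q n)) ⊕ (Fin (d (sel n)) × Fin (p n * q n)) ≃ Fin (q (n + 1))
  compat₀ : ∀ (n : ℕ) (B : Type) [CStarAlgebra B] (g : Mt (Fin (p n)) B)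
    (M : Mt (Fin (d (sel n)) × Fin (p n * q n)) B),
    Mt.reindex (E n) (slot (m n) (q (n + 1)) (p (n + 1) - q (n + 1)) (Mt.amp (e₀ n) g) M
      (dAmp (d (sel n)) (Mt.amp (e₀ n) g))) =
    Mt.amp (e₀ (n + 1)) (Mt.reindex (Z₀ n) (two (μ₀ n) g M))
  compat₁ : ∀ (n : ℕ) (B : Type) [CStarAlgebra B] (g : Mt (Fin (q n)) B)
    (M : Mt (Fin (d (sel n)) × Fin (p n * q n)) B),
    Mt.reindex (E n) (slot (m n) (q (n + 1)) (p (n + 1) - q (n + 1)) (Mt.amp (e₁ n) g) M M) =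
    Mt.amp (e₁ (n + 1)) (Mt.reindex (Z₁ n) (two (μ₁ n) g M))

namespace TowerData

variable {d : ℕ → ℕ} (T : TowerData d)

/-- The size of the matrices at stage `n`. -/
abbrev r (n : ℕ) : ℕ := T.p n * T.q n

theorem p_pos (n : ℕ) : 0 < T.p n := by
  cases n with
  | zero => rw [T.p_zero]; exact Nat.one_pos
  | succ n => exact lt_of_le_of_lt (Nat.zero_le _) (T.q_lt_p n)

theorem r_pos (n : ℕ) : 0 < T.r n := Nat.mul_pos (T.p_pos n) (T.q_pos n)

theorem m_pos (n : ℕ) : 0 < T.m n := by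
  rcases Nat.eq_zero_or_pos (T.m n) with h | h
  · exfalso
    have h1 := T.m_eq n
    rw [h, zero_add, T.p_succ] at h1
    have hp := T.p_pos (n + 1)
    have hq := T.q_pos (n + 1)
    rw [T.p_succ] at hp
    rw [T.q_succ] at hq
    have hk0 : 0 < T.k₀ n := Nat.pos_of_mul_pos_right hp
    have hk1 : 0 < T.k₁ n := Nat.pos_of_mul_pos_right hq
    have h2 : d (T.sel n) * T.p n = T.k₁ n := by
      apply Nat.eq_of_mul_eq_mul_left hk0
      rw [← h1]; ring
    have h3 := T.small₁ n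
    have h4 : (d (T.sel n) * T.p n : ℝ) = T.k₁ n := by exact_mod_cast h2
    rw [h4] at h3
    have hk1' : (0 : ℝ) < T.k₁ n := by exact_mod_cast hk1
    have h5 : (1 / 8 : ℝ) ^ (n + 1) < 1 := pow_lt_one₀ (by norm_num) (by norm_num) (Nat.succ_ne_zero n)
    nlinarith
  · exact h

variable {B : Type} [CStarAlgebra B] (C : ConeAlg d B)

/-- The building block of stage `n`, over an arbitrary C*-algebra `B`: continuous functions on
the unit interval with values in the `r n × r n` matrices over `B`, with values in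
`M_{p n}(B) ⊗ 1` at `0` and in `M_{q n}(B) ⊗ 1` at `1`. -/
def Bl (B : Type) [CStarAlgebra B] (n : ℕ) : StarSubalgebra ℂ C(unitInterval, Mt (Fin (T.r n)) B) where
  carrier := {f | f 0 ∈ (Mt.amp (T.e₀ n) : Mt (Fin (T.p n)) B →⋆ₐ[ℂ] Mt (Fin (T.r n)) B).range ∧
    f 1 ∈ (Mt.amp (T.e₁ n) : Mt (Fin (T.q n)) B →⋆ₐ[ℂ] Mt (Fin (T.r n)) B).range}
  mul_mem' ha hb := ⟨mul_mem ha.1 hb.1, mul_mem ha.2 hb.2⟩
  add_mem' ha hb := ⟨add_mem ha.1 hb.1, add_mem ha.2 hb.2⟩
  algebraMap_mem' c := ⟨algebraMap_mem _ c, algebraMap_mem _ c⟩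
  star_mem' ha := ⟨star_mem ha.1, star_mem ha.2⟩

theorem mem_Bl {n : ℕ} {f : C(unitInterval, Mt (Fin (T.r n)) B)} :
    f ∈ T.Bl B n ↔ (∃ g : Mt (Fin (T.p n)) B, Mt.amp (T.e₀ n) g = f 0) ∧
      ∃ g : Mt (Fin (T.q n)) B, Mt.amp (T.e₁ n) g = f 1 := Iff.rfl

/-- The range of an amplification is closed. -/
theorem Tower_range_closed {ι κ σ : Type} [Fintype ι] [DecidableEq ι] [Fintype κ] [DecidableEq κ]
    [Fintype σ] [DecidableEq σ] (e : κ ≃ ι × σ) (s₀ : σ) :
    IsClosed {M : Mt κ B | M ∈ (Mt.amp e : Mt ι B →⋆ₐ[ℂ] Mt κ B).range} := by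
  have h : {M : Mt κ B | M ∈ (Mt.amp e : Mt ι B →⋆ₐ[ℂ] Mt κ B).range} =
      ⋂ (i : κ) (j : κ), {M : Mt κ B | M i j =
        if (e i).2 = (e j).2 then M (e.symm ((e i).1, s₀)) (e.symm ((e j).1, s₀)) else 0} := by
    ext M
    have h1 : (M ∈ {M : Mt κ B | M ∈ (Mt.amp e : Mt ι B →⋆ₐ[ℂ] Mt κ B).range}) ↔
        ∃ g : Mt ι B, Mt.amp e g = M := Iff.rfl
    have h2 : (M ∈ ⋂ (i : κ) (j : κ), {M : Mt κ B | M i j =
        if (e i).2 = (e j).2 then M (e.symm ((e i).1, s₀)) (e.symm ((e j).1, s₀)) else 0}) ↔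
        ∀ i j, M i j =
          if (e i).2 = (e j).2 then M (e.symm ((e i).1, s₀)) (e.symm ((e j).1, s₀)) else 0 := by
      simp only [Set.mem_iInter]
      exact Iff.rfl
    rw [h1, h2]
    constructor
    · rintro ⟨g, rfl⟩ i j
      simp only [Mt.amp_apply, Equiv.apply_symm_apply, if_true]
    · intro hM
      refine ⟨Mt.of fun a b => M (e.symm (a, s₀)) (e.symm (b, s₀)), ?_⟩
      refine Mt.ext fun i j => ?_
      rw [Mt.amp_apply, hM i j]
      rfl
  rw [h]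
  refine isClosed_iInter fun i => isClosed_iInter fun j => ?_
  by_cases hij : (e i).2 = (e j).2
  · simp only [hij, if_true]
    exact isClosed_eq (Mt.continuous_entry i j) (Mt.continuous_entry _ _)
  · simp only [hij, if_false]
    exact isClosed_eq (Mt.continuous_entry i j) continuous_const

instance Bl_closed (n : ℕ) : IsClosed (T.Bl B n : Set C(unitInterval, Mt (Fin (T.r n)) B)) := by
  have h0 := Tower_range_closed (B := B) (T.e₀ n) ⟨0, T.q_pos n⟩
  have h1 := Tower_range_closed (B := B) (T.e₁ n) ⟨0, T.p_pos n⟩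
  have c0 : Continuous fun f : C(unitInterval, Mt (Fin (T.r n)) B) => f 0 :=
    continuous_eval_const (0 : unitInterval)
  have c1 : Continuous fun f : C(unitInterval, Mt (Fin (T.r n)) B) => f 1 :=
    continuous_eval_const (1 : unitInterval)
  exact (h0.preimage c0).inter (h1.preimage c1)

/-- The connecting map on all continuous functions. -/
noncomputable def PhiC (n : ℕ) :
    C(unitInterval, Mt (Fin (T.r n)) B) →⋆ₐ[ℂ] C(unitInterval, Mt (Fin (T.r (n + 1))) B) where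
  toFun f := ⟨fun x => Mt.reindex (T.E n) (Phi0 C (T.sel n) (T.ξ n) (T.m n) (T.q (n + 1))
    (T.p (n + 1) - T.q (n + 1)) f x), by
    rw [Mt.continuous_iff]
    intro i j
    exact (Mt.continuous_iff.1 (Phi0 C (T.sel n) (T.ξ n) (T.m n) (T.q (n + 1))
      (T.p (n + 1) - T.q (n + 1)) f).continuous) _ _⟩
  map_one' := by
    refine ContinuousMap.ext fun x => ?_
    change Mt.reindex (T.E n) (Phi0 C (T.sel n) (T.ξ n) (T.m n) (T.q (n + 1))
      (T.p (n + 1) - T.q (n + 1)) 1 x) = 1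
    rw [map_one, ContinuousMap.one_apply, map_one]
  map_mul' f g := by
    refine ContinuousMap.ext fun x => ?_
    change Mt.reindex (T.E n) (Phi0 C (T.sel n) (T.ξ n) (T.m n) (T.q (n + 1))
      (T.p (n + 1) - T.q (n + 1)) (f * g) x) =
      Mt.reindex (T.E n) (Phi0 C (T.sel n) (T.ξ n) (T.m n) (T.q (n + 1))
        (T.p (n + 1) - T.q (n + 1)) f x) *
      Mt.reindex (T.E n) (Phi0 C (T.sel n) (T.ξ n) (T.m n) (T.q (n + 1))
        (T.p (n + 1) - T.q (n + 1)) g x)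
    rw [map_mul, ContinuousMap.mul_apply, map_mul]
  map_zero' := by
    refine ContinuousMap.ext fun x => ?_
    change Mt.reindex (T.E n) (Phi0 C (T.sel n) (T.ξ n) (T.m n) (T.q (n + 1))
      (T.p (n + 1) - T.q (n + 1)) 0 x) = 0
    rw [map_zero, ContinuousMap.zero_apply, map_zero]
  map_add' f g := by
    refine ContinuousMap.ext fun x => ?_
    change Mt.reindex (T.E n) (Phi0 C (T.sel n) (T.ξ n) (T.m n) (T.q (n + 1))
      (T.p (n + 1) - T.q (n + 1)) (f + g) x) =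
      Mt.reindex (T.E n) (Phi0 C (T.sel n) (T.ξ n) (T.m n) (T.q (n + 1))
        (T.p (n + 1) - T.q (n + 1)) f x) +
      Mt.reindex (T.E n) (Phi0 C (T.sel n) (T.ξ n) (T.m n) (T.q (n + 1))
        (T.p (n + 1) - T.q (n + 1)) g x)
    rw [map_add, ContinuousMap.add_apply, map_add]
  commutes' c := by
    refine ContinuousMap.ext fun x => ?_
    change Mt.reindex (T.E n) (Phi0 C (T.sel n) (T.ξ n) (T.m n) (T.q (n + 1))
      (T.p (n + 1) - T.q (n + 1)) (algebraMap ℂ _ c) x) = algebraMap ℂ _ c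
    rw [AlgHomClass.commutes]
    exact AlgHomClass.commutes (Mt.reindex (T.E n)) c
  map_star' f := by
    refine ContinuousMap.ext fun x => ?_
    change Mt.reindex (T.E n) (Phi0 C (T.sel n) (T.ξ n) (T.m n) (T.q (n + 1))
      (T.p (n + 1) - T.q (n + 1)) (star f) x) =
      star (Mt.reindex (T.E n) (Phi0 C (T.sel n) (T.ξ n) (T.m n) (T.q (n + 1))
        (T.p (n + 1) - T.q (n + 1)) f x))
    rw [map_star, ContinuousMap.star_apply, map_star]

theorem PhiC_apply (n : ℕ) (f : C(unitInterval, Mt (Fin (T.r n)) B)) (x : unitInterval) :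
    T.PhiC C n f x = Mt.reindex (T.E n) (slot (T.m n) (T.q (n + 1)) (T.p (n + 1) - T.q (n + 1))
      (f x) (piAmp (C.π (T.sel n)) (f (T.ξ n))) (cpath C (T.sel n) (T.ξ n) x f)) := rfl

theorem Tower_map_h_one {ι : Type} [Fintype ι] [DecidableEq ι] (M : Mt ι B) :
    Mt.map (C.h 1) M = M := by
  refine Mt.ext fun i j => ?_
  rw [Mt.map_apply, C.h_one]

theorem Tower_cpath_zero {ι : Type} [Fintype ι] [DecidableEq ι] (k : ℕ) (ξ : unitInterval)
    (f : C(unitInterval, Mt ι B)) : cpath C k ξ 0 f = dAmp (d k) (f 0) := by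
  have ha : aPar 0 = 1 := by
    unfold aPar
    rw [Set.projIcc_of_right_le zero_le_one (by simp)]
    rfl
  have hb : bPar ξ 0 = 0 := by
    unfold bPar
    rw [Set.projIcc_of_le_left zero_le_one (by simp)]
    exact zero_mul ξ
  unfold cpath
  rw [if_pos (by simp), ha, hb, Tower_map_h_one]

theorem Tower_cpath_one {ι : Type} [Fintype ι] [DecidableEq ι] (k : ℕ) (ξ : unitInterval)
    (f : C(unitInterval, Mt ι B)) : cpath C k ξ 1 f = piAmp (C.π k) (f ξ) := by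
  have hc : cPar 1 = 1 := by
    unfold cPar
    rw [Set.projIcc_of_right_le zero_le_one (by simp; norm_num)]
    rfl
  unfold cpath
  rw [if_neg (by simp; norm_num), hc, Tower_map_h_one]

theorem PhiC_mem (n : ℕ) {f : C(unitInterval, Mt (Fin (T.r n)) B)} (hf : f ∈ T.Bl B n) :
    T.PhiC C n f ∈ T.Bl B (n + 1) := by
  rw [mem_Bl] at hf ⊢
  obtain ⟨⟨g₀, h₀⟩, ⟨g₁, h₁⟩⟩ := hf
  refine ⟨⟨Mt.reindex (T.Z₀ n) (two (T.μ₀ n) g₀ (piAmp (C.π (T.sel n)) (f (T.ξ n)))), ?_⟩,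
    ⟨Mt.reindex (T.Z₁ n) (two (T.μ₁ n) g₁ (piAmp (C.π (T.sel n)) (f (T.ξ n)))), ?_⟩⟩
  · rw [← T.compat₀ n B g₀ (piAmp (C.π (T.sel n)) (f (T.ξ n))), PhiC_apply, Tower_cpath_zero, h₀]
  · rw [← T.compat₁ n B g₁ (piAmp (C.π (T.sel n)) (f (T.ξ n))), PhiC_apply, Tower_cpath_one, h₁]

/-- The building block of stage `n` as a C*-algebra. -/
def Bk (B : Type) [CStarAlgebra B] (n : ℕ) : Type := ↥(T.Bl B n)

noncomputable instance (n : ℕ) : CStarAlgebra (T.Bk B n) :=
  inferInstanceAs (CStarAlgebra ↥(T.Bl B n))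

namespace Bk

variable {T} {n : ℕ}

/-- The underlying continuous function. -/
def val (f : T.Bk B n) : C(unitInterval, Mt (Fin (T.r n)) B) := Subtype.val f

/-- A continuous function with the right boundary values as an element of the building block. -/
def mk (f : C(unitInterval, Mt (Fin (T.r n)) B)) (hf : f ∈ T.Bl B n) : T.Bk B n := ⟨f, hf⟩

@[simp] theorem val_mk (f : C(unitInterval, Mt (Fin (T.r n)) B)) (hf : f ∈ T.Bl B n) :
    (mk f hf).val = f := rfl

@[ext] theorem ext {f g : T.Bk B n} (h : f.val = g.val) : f = g := Subtype.ext h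

theorem val_mem (f : T.Bk B n) : f.val ∈ T.Bl B n := f.2

@[simp] theorem val_one : (1 : T.Bk B n).val = 1 := rfl
@[simp] theorem val_zero : (0 : T.Bk B n).val = 0 := rfl
@[simp] theorem val_add (f g : T.Bk B n) : (f + g).val = f.val + g.val := rfl
@[simp] theorem val_sub (f g : T.Bk B n) : (f - g).val = f.val - g.val := rfl
@[simp] theorem val_neg (f : T.Bk B n) : (-f).val = -f.val := rfl
@[simp] theorem val_mul (f g : T.Bk B n) : (f * g).val = f.val * g.val := rfl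
@[simp] theorem val_star (f : T.Bk B n) : (star f).val = star f.val := rfl
@[simp] theorem val_smul (c : ℂ) (f : T.Bk B n) : (c • f).val = c • f.val := rfl
theorem val_algebraMap (c : ℂ) : (algebraMap ℂ (T.Bk B n) c).val = algebraMap ℂ _ c := rfl
theorem norm_val (f : T.Bk B n) : ‖f.val‖ = ‖f‖ := rfl

/-- The inclusion in the continuous functions. -/
noncomputable def valHom : T.Bk B n →⋆ₐ[ℂ] C(unitInterval, Mt (Fin (T.r n)) B) where
  toFun := val
  map_one' := rfl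
  map_mul' _ _ := rfl
  map_zero' := rfl
  map_add' _ _ := rfl
  commutes' _ := rfl
  map_star' _ := rfl

@[simp] theorem valHom_apply (f : T.Bk B n) : valHom f = f.val := rfl

theorem continuous_val : Continuous (val : T.Bk B n → C(unitInterval, Mt (Fin (T.r n)) B)) :=
  continuous_subtype_val

end Bk

/-- The connecting map. -/
noncomputable def Φ (n : ℕ) : T.Bk B n →⋆ₐ[ℂ] T.Bk B (n + 1) where
  toFun f := Bk.mk (T.PhiC C n f.val) (T.PhiC_mem C n f.val_mem)
  map_one' := Bk.ext (map_one (T.PhiC C n))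
  map_mul' f g := Bk.ext (map_mul (T.PhiC C n) _ _)
  map_zero' := Bk.ext (map_zero (T.PhiC C n))
  map_add' f g := Bk.ext (map_add (T.PhiC C n) _ _)
  commutes' c := Bk.ext (AlgHomClass.commutes (T.PhiC C n) c)
  map_star' f := Bk.ext (map_star (T.PhiC C n) _)

@[simp] theorem Φ_val (n : ℕ) (f : T.Bk B n) : (T.Φ C n f).val = T.PhiC C n f.val := rfl

theorem Φ_inj (n : ℕ) : Function.Injective (T.Φ C n) := by
  intro f g h
  apply Bk.ext
  have h1 : T.PhiC C n f.val = T.PhiC C n g.val := congrArg Bk.val h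
  refine ContinuousMap.ext fun x => Mt.ext fun i j => ?_
  have h2 := congrArg (fun F : C(unitInterval, Mt (Fin (T.r (n + 1))) B) =>
    F x (T.E n (Sum.inl (⟨0, T.m_pos n⟩, i))) (T.E n (Sum.inl (⟨0, T.m_pos n⟩, j)))) h1
  simp only [PhiC_apply, Mt.reindex_apply, Equiv.symm_apply_apply] at h2
  simpa [slot] using h2

/-- `A` is the limit of the inductive system. -/
structure IsLimit (A : Type) [CStarAlgebra A] (R : ∀ n, T.Bk B n →⋆ₐ[ℂ] A) : Prop where
  compat : ∀ n f, R (n + 1) (T.Φ C n f) = R n f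
  inj : ∀ n, Function.Injective (R n)
  dense : ∀ (a : A) (ε : ℝ), 0 < ε → ∃ n f, ‖R n f - a‖ < ε

end TowerData

end Pool.Agent.H.MP_e11395_an
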